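import Pool.Agent.EFA.Stmts

/-!
# Squad EFA, row REC (helper74): images of computable sets are computable
-/

set_option autoImplicit false

open Pool.Agent.Helper25TD

namespace Pool.Agent.EFA.H74

open Pool.Agent.EFA

theorem chi_partrec {x : ℕ → Bool} (hx : Computable x) : Partrec (chi x) := by
  have h : Computable fun n => (x n).toNat := (Primrec.dom_bool Bool.toNat).to_comp.comp hx
  exact h

theorem of_chi {x : ℕ → Bool} (hx : Partrec (chi x)) : Computable x := by
  have h : Computable fun n => (x n).toNat := hx
  have h1 : Primrec fun m : ℕ => (m == 1) := Primrec.beq.comp Primrec.id (Primrec.const 1)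
  refine (h1.to_comp.comp h).of_eq fun n => ?_
  cases x n <;> rfl

theorem recThm : RecStmt := by
  intro F hF R hR
  have h1 : REPred R := by
    have h2 : ComputablePred R := ⟨fun n => Classical.propDecidable _, hR⟩
    exact h2.to_re
  refine ⟨h1, ?_⟩
  obtain ⟨A, hA, hFA⟩ := hF.zero
  have h2 : Le R A := (chi_partrec hR).recursiveIn
  have h3 : Le (F R) (F A) := (hF.iff R A h1 hA).1 h2
  have h4 : Partrec (chi (bo (F R))) := by
    refine RecursiveIn.partrec_of_oracle ?_ h3
    intro g hg
    rw [Set.mem_singleton_iff.1 hg]
    exact chi_partrec hFA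
  exact of_chi h4

end Pool.Agent.EFA.H74
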